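import Pool.Agent.Q248.RL.Stm2
import Pool.Agent.Y813.RL.Bf

set_option autoImplicit false

/-!
# GENUS-EED: the facts on the root lattice `2E_8 + D_4`
-/

namespace Pool.Agent.Q175.RL

open Pool.Agent.Y813.RL Pool.Agent.Q248.RL Matrix

theorem bf_blocks {ι κ R : Type*} [Fintype ι] [Fintype κ] [CommRing R] (A : Matrix ι ι ℤ)
    (D : Matrix κ κ ℤ) (x y : ι ⊕ κ → R) :
    bf (Matrix.fromBlocks A 0 0 D) x y =
      bf A (fun i => x (Sum.inl i)) (fun i => y (Sum.inl i)) +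
      bf D (fun i => x (Sum.inr i)) (fun i => y (Sum.inr i)) := by
  simp [bf, Fintype.sum_sum_type]

/-- the inverse of the Cartan matrix of type `E_8` -/
def E8i : Matrix (Fin 8) (Fin 8) ℤ :=
  !![4,5,7,10,8,6,4,2; 5,8,10,15,12,9,6,3; 7,10,14,20,16,12,8,4; 10,15,20,30,24,18,12,6;
    8,12,16,24,20,15,10,5; 6,9,12,18,15,12,8,4; 4,6,8,12,10,8,6,3; 2,3,4,6,5,4,3,2]

theorem E8_mul : CartanMatrix.E₈ * E8i = 1 := by decide

/-- the adjugate of the Cartan matrix of type `D_4` -/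
def D4a : Matrix (Fin 4) (Fin 4) ℤ :=
  !![4,4,2,2;4,8,4,4;2,4,4,2;2,4,2,4]

theorem D4_mul : CartanMatrix.D 4 * D4a = (4 : ℤ) • (1 : Matrix (Fin 4) (Fin 4) ℤ) := by
  rw [CartanMatrix.D_four]
  decide

theorem D4_det : (CartanMatrix.D 4).det = 4 := by
  rw [CartanMatrix.D_four]
  decide

theorem bfE8 {R : Type*} [CommRing R] (x : Fin 8 → R) : bf CartanMatrix.E₈ x x =
    2 * (x 0 ^ 2 + x 1 ^ 2 + x 2 ^ 2 + x 3 ^ 2 + x 4 ^ 2 + x 5 ^ 2 + x 6 ^ 2 + x 7 ^ 2) -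
    2 * (x 0 * x 2 + x 1 * x 3 + x 2 * x 3 + x 3 * x 4 + x 4 * x 5 + x 5 * x 6 + x 6 * x 7) := by
  simp [bf, CartanMatrix.E₈, Fin.sum_univ_succ]
  ring

theorem posE8 (x : Fin 8 → ℝ) (hx : x ≠ 0) : 0 < bf CartanMatrix.E₈ x x := by
  rw [bfE8]
  by_contra hn
  apply hx
  have h0 : 2 * (x 0 - x 2 / 2) ^ 2 + 2 * (x 1 - x 3 / 2) ^ 2 + (3 / 2) * (x 2 - 2 / 3 * x 3) ^ 2 +
      2 * (x 7 - x 6 / 2) ^ 2 + (3 / 2) * (x 6 - 2 / 3 * x 5) ^ 2 +
      (4 / 3) * (x 5 - 3 / 4 * x 4) ^ 2 + (5 / 4) * (x 4 - 4 / 5 * x 3) ^ 2 + x 3 ^ 2 / 30 ≤ 0 := by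
    nlinarith
  have s1 := sq_nonneg (x 0 - x 2 / 2)
  have s2 := sq_nonneg (x 1 - x 3 / 2)
  have s3 := sq_nonneg (x 2 - 2 / 3 * x 3)
  have s4 := sq_nonneg (x 7 - x 6 / 2)
  have s5 := sq_nonneg (x 6 - 2 / 3 * x 5)
  have s6 := sq_nonneg (x 5 - 3 / 4 * x 4)
  have s7 := sq_nonneg (x 4 - 4 / 5 * x 3)
  have s8 := sq_nonneg (x 3)
  have e3 : x 3 = 0 := by
    have : x 3 ^ 2 = 0 := by linarith
    exact pow_eq_zero_iff two_ne_zero |>.1 this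
  have e4 : x 4 = 0 := by
    have : (x 4 - 4 / 5 * x 3) ^ 2 = 0 := by linarith
    have := pow_eq_zero_iff two_ne_zero |>.1 this
    linarith
  have e5 : x 5 = 0 := by
    have : (x 5 - 3 / 4 * x 4) ^ 2 = 0 := by linarith
    have := pow_eq_zero_iff two_ne_zero |>.1 this
    linarith
  have e6 : x 6 = 0 := by
    have : (x 6 - 2 / 3 * x 5) ^ 2 = 0 := by linarith
    have := pow_eq_zero_iff two_ne_zero |>.1 this
    linarith
  have e7 : x 7 = 0 := by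
    have : (x 7 - x 6 / 2) ^ 2 = 0 := by linarith
    have := pow_eq_zero_iff two_ne_zero |>.1 this
    linarith
  have e2 : x 2 = 0 := by
    have : (x 2 - 2 / 3 * x 3) ^ 2 = 0 := by linarith
    have := pow_eq_zero_iff two_ne_zero |>.1 this
    linarith
  have e1 : x 1 = 0 := by
    have : (x 1 - x 3 / 2) ^ 2 = 0 := by linarith
    have := pow_eq_zero_iff two_ne_zero |>.1 this
    linarith
  have e0 : x 0 = 0 := by
    have : (x 0 - x 2 / 2) ^ 2 = 0 := by linarith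
    have := pow_eq_zero_iff two_ne_zero |>.1 this
    linarith
  funext i
  fin_cases i <;> simp [e0, e1, e2, e3, e4, e5, e6, e7]

theorem bfD4 {R : Type*} [CommRing R] (x : Fin 4 → R) : bf (CartanMatrix.D 4) x x =
    2 * (x 0 ^ 2 + x 1 ^ 2 + x 2 ^ 2 + x 3 ^ 2) -
    2 * (x 0 * x 1 + x 1 * x 2 + x 1 * x 3) := by
  rw [CartanMatrix.D_four]
  simp [bf, Fin.sum_univ_succ]
  ring

theorem posD4 (x : Fin 4 → ℝ) (hx : x ≠ 0) : 0 < bf (CartanMatrix.D 4) x x := by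
  rw [bfD4]
  by_contra hn
  apply hx
  have h0 : 2 * (x 0 - x 1 / 2) ^ 2 + 2 * (x 2 - x 1 / 2) ^ 2 + 2 * (x 3 - x 1 / 2) ^ 2 +
      x 1 ^ 2 / 2 ≤ 0 := by
    nlinarith
  have s1 := sq_nonneg (x 0 - x 1 / 2)
  have s2 := sq_nonneg (x 2 - x 1 / 2)
  have s3 := sq_nonneg (x 3 - x 1 / 2)
  have s8 := sq_nonneg (x 1)
  have e1 : x 1 = 0 := by
    have : x 1 ^ 2 = 0 := by linarith
    exact pow_eq_zero_iff two_ne_zero |>.1 this
  have e0 : x 0 = 0 := by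
    have : (x 0 - x 1 / 2) ^ 2 = 0 := by linarith
    have := pow_eq_zero_iff two_ne_zero |>.1 this
    linarith
  have e2 : x 2 = 0 := by
    have : (x 2 - x 1 / 2) ^ 2 = 0 := by linarith
    have := pow_eq_zero_iff two_ne_zero |>.1 this
    linarith
  have e3 : x 3 = 0 := by
    have : (x 3 - x 1 / 2) ^ 2 = 0 := by linarith
    have := pow_eq_zero_iff two_ne_zero |>.1 this
    linarith
  funext i
  fin_cases i <;> simp [e0, e1, e2, e3]

theorem nonneg_of_pos {n : ℕ} {B : Matrix (Fin n) (Fin n) ℤ}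
    (h : ∀ x : Fin n → ℝ, x ≠ 0 → 0 < bf B x x) (x : Fin n → ℝ) : 0 ≤ bf B x x := by
  by_cases hx : x = 0
  · simp [hx, bf]
  · exact (h x hx).le

theorem posEED (x : Fin 8 ⊕ (Fin 8 ⊕ Fin 4) → ℝ) (hx : x ≠ 0) : 0 < bf gramEED x x := by
  unfold gramEED
  rw [bf_blocks, bf_blocks]
  have n1 := nonneg_of_pos posE8 (fun i => x (Sum.inl i))
  have n2 := nonneg_of_pos posE8 (fun i => x (Sum.inr (Sum.inl i)))
  have n3 := nonneg_of_pos posD4 (fun i => x (Sum.inr (Sum.inr i)))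
  by_cases h1 : (fun i => x (Sum.inl i)) = 0
  · by_cases h2 : (fun i => x (Sum.inr (Sum.inl i))) = 0
    · by_cases h3 : (fun i => x (Sum.inr (Sum.inr i))) = 0
      · exfalso
        apply hx
        funext i
        rcases i with i | i | i
        · exact congrFun h1 i
        · exact congrFun h2 i
        · exact congrFun h3 i
      · have := posD4 _ h3
        linarith
    · have := posE8 _ h2
      linarith
  · have := posE8 _ h1
    linarith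

/-- the adjugate of the Gram matrix -/
def adjE : Matrix (Fin 8 ⊕ (Fin 8 ⊕ Fin 4)) (Fin 8 ⊕ (Fin 8 ⊕ Fin 4)) ℤ :=
  Matrix.fromBlocks ((4 : ℤ) • E8i) 0 0 (Matrix.fromBlocks ((4 : ℤ) • E8i) 0 0 D4a)

theorem gram_mul : gramEED * adjE = (4 : ℤ) • (1 : Matrix _ _ ℤ) := by
  unfold gramEED adjE
  rw [Matrix.fromBlocks_multiply, Matrix.fromBlocks_multiply]
  simp only [Matrix.mul_zero, Matrix.zero_mul, add_zero, zero_add, Matrix.mul_smul, E8_mul, D4_mul]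
  rw [← Matrix.fromBlocks_one, ← Matrix.fromBlocks_one, Matrix.fromBlocks_smul,
    Matrix.fromBlocks_smul]
  simp

theorem gram_det : gramEED.det = 4 := by
  unfold gramEED
  rw [Matrix.det_fromBlocks_zero₂₁, Matrix.det_fromBlocks_zero₂₁, CartanMatrix.E₈_det, D4_det]
  norm_num

theorem gram_adj : gramEED.adjugate = adjE := by
  have h1 : gramEED.adjugate * (gramEED * adjE) = (4 : ℤ) • adjE := by
    rw [← Matrix.mul_assoc, Matrix.adjugate_mul, gram_det]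
    simp
  rw [gram_mul] at h1
  have h2 : (4 : ℤ) • gramEED.adjugate = (4 : ℤ) • adjE := by
    rw [← h1, Matrix.mul_smul, Matrix.mul_one]
  ext i j
  have := congrFun (congrFun h2 i) j
  simp only [Matrix.smul_apply, smul_eq_mul] at this
  omega

theorem bfE8i (a : Fin 8 → ℤ) : bf ((4 : ℤ) • E8i) a a =
    8 * (2 * a 0 ^ 2 + 4 * a 1 ^ 2 + 7 * a 2 ^ 2 + 15 * a 3 ^ 2 + 10 * a 4 ^ 2 + 6 * a 5 ^ 2 +
      3 * a 6 ^ 2 + a 7 ^ 2 +
      5 * a 0 * a 1 + 7 * a 0 * a 2 + 10 * a 0 * a 3 + 8 * a 0 * a 4 + 6 * a 0 * a 5 +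
      4 * a 0 * a 6 + 2 * a 0 * a 7 +
      10 * a 1 * a 2 + 15 * a 1 * a 3 + 12 * a 1 * a 4 + 9 * a 1 * a 5 + 6 * a 1 * a 6 +
      3 * a 1 * a 7 +
      20 * a 2 * a 3 + 16 * a 2 * a 4 + 12 * a 2 * a 5 + 8 * a 2 * a 6 + 4 * a 2 * a 7 +
      24 * a 3 * a 4 + 18 * a 3 * a 5 + 12 * a 3 * a 6 + 6 * a 3 * a 7 +
      15 * a 4 * a 5 + 10 * a 4 * a 6 + 5 * a 4 * a 7 +
      8 * a 5 * a 6 + 4 * a 5 * a 7 + 3 * a 6 * a 7) := by
  simp [bf, E8i, Fin.sum_univ_succ]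
  ring

theorem bfD4a (c : Fin 4 → ℤ) : bf D4a c c =
    4 * (c 0 ^ 2 + 2 * c 1 ^ 2 + c 2 ^ 2 + c 3 ^ 2 + 2 * c 0 * c 1 + c 0 * c 2 + c 0 * c 3 +
      2 * c 1 * c 2 + 2 * c 1 * c 3 + c 2 * c 3) := by
  simp [bf, D4a, Fin.sum_univ_succ]
  ring

theorem eed : S_EED := by
  refine ⟨?_, ?_, posEED, gram_det, ?_⟩
  · unfold gramEED
    exact Matrix.IsSymm.fromBlocks CartanMatrix.E₈_isSymm (by simp)
      (Matrix.IsSymm.fromBlocks CartanMatrix.E₈_isSymm (by simp) (CartanMatrix.D_isSymm 4))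
  · rintro (i | i | i)
    · exact ⟨1, by simp [gramEED]⟩
    · exact ⟨1, by simp [gramEED]⟩
    · exact ⟨1, by simp [gramEED]⟩
  · intro μ
    rw [gram_adj]
    set c : Fin 4 → ℤ := fun i => μ (Sum.inr (Sum.inr i)) with hc
    by_cases hp : (2 : ℤ) ∣ c 0 - c 2 ∧ (2 : ℤ) ∣ c 0 - c 3
    · left
      obtain ⟨⟨s, hs⟩, ⟨t, ht⟩⟩ := hp
      set w : Fin 4 → ℤ := ![c 0 + c 1 + c 0 - s - t, c 0 + 2 * c 1 + c 2 + c 3,
        c 1 + c 2 + c 0 - t, c 1 + c 3 + c 0 - s] with hw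
      refine ⟨Sum.elim (E8i.mulVec fun i => μ (Sum.inl i))
        (Sum.elim (E8i.mulVec fun i => μ (Sum.inr (Sum.inl i))) w), ?_⟩
      unfold gramEED
      rw [Matrix.fromBlocks_mulVec]
      simp only [Sum.elim_comp_inl, Sum.elim_comp_inr, Matrix.zero_mulVec, add_zero,
        Matrix.fromBlocks_mulVec, Matrix.mulVec_mulVec, E8_mul, Matrix.one_mulVec]
      funext i
      rcases i with i | i | i
      · simp
      · simp
      · simp only [Sum.elim_inr]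
        have h2 : μ (Sum.inr (Sum.inr i)) = c i := rfl
        rw [h2, CartanMatrix.D_four]
        fin_cases i <;> simp [hw, Matrix.mulVec, dotProduct, Fin.sum_univ_succ] <;> omega
    · right
      unfold adjE
      rw [bf_blocks, bf_blocks, bfE8i, bfE8i, bfD4a]
      have key : ∃ k : ℤ, c 0 ^ 2 + 2 * c 1 ^ 2 + c 2 ^ 2 + c 3 ^ 2 + 2 * c 0 * c 1 + c 0 * c 2 +
          c 0 * c 3 + 2 * c 1 * c 2 + 2 * c 1 * c 3 + c 2 * c 3 = 2 * k + 1 := by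
        rcases Int.even_or_odd' (c 0) with ⟨p, hp0 | hp0⟩ <;>
        rcases Int.even_or_odd' (c 2) with ⟨q, hq0 | hq0⟩ <;>
        rcases Int.even_or_odd' (c 3) with ⟨r, hr0 | hr0⟩
        · exfalso; apply hp; constructor <;> omega
        · refine ⟨2 * p ^ 2 + c 1 ^ 2 + 2 * q ^ 2 + 2 * r ^ 2 + 2 * r + 2 * p * c 1 + 2 * p * q +
            p * (2 * r + 1) + 2 * c 1 * q + c 1 * (2 * r + 1) + q * (2 * r + 1), ?_⟩
          rw [hp0, hq0, hr0]; ring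
        · refine ⟨2 * p ^ 2 + c 1 ^ 2 + 2 * q ^ 2 + 2 * q + 2 * r ^ 2 + 2 * p * c 1 +
            p * (2 * q + 1) + 2 * p * r + c 1 * (2 * q + 1) + c 1 * (2 * r) + (2 * q + 1) * r, ?_⟩
          rw [hp0, hq0, hr0]; ring
        · refine ⟨2 * p ^ 2 + c 1 ^ 2 + 2 * q ^ 2 + 2 * q + 2 * r ^ 2 + 2 * r + 2 * p * c 1 +
            p * (2 * q + 1) + p * (2 * r + 1) + c 1 * (2 * q + 1) + c 1 * (2 * r + 1) +
            2 * q * r + q + r + 1, ?_⟩
          rw [hp0, hq0, hr0]; ring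
        · refine ⟨2 * p ^ 2 + 2 * p + c 1 ^ 2 + 2 * q ^ 2 + 2 * r ^ 2 + (2 * p + 1) * c 1 +
            (2 * p + 1) * q + (2 * p + 1) * r + c 1 * (2 * q) + c 1 * (2 * r) + 2 * q * r, ?_⟩
          rw [hp0, hq0, hr0]; ring
        · refine ⟨2 * p ^ 2 + 2 * p + c 1 ^ 2 + 2 * q ^ 2 + 2 * r ^ 2 + 2 * r + (2 * p + 1) * c 1 +
            (2 * p + 1) * q + 2 * p * r + p + r + 1 + c 1 * (2 * q) + c 1 * (2 * r + 1) +
            q * (2 * r + 1), ?_⟩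
          rw [hp0, hq0, hr0]; ring
        · refine ⟨2 * p ^ 2 + 2 * p + c 1 ^ 2 + 2 * q ^ 2 + 2 * q + 2 * r ^ 2 + (2 * p + 1) * c 1 +
            (2 * p + 1) * r + 2 * p * q + p + q + 1 + c 1 * (2 * q + 1) + c 1 * (2 * r) +
            r * (2 * q + 1), ?_⟩
          rw [hp0, hq0, hr0]; ring
        · exfalso; apply hp; constructor <;> omega
      obtain ⟨k, hk⟩ := key
      have e : ∀ X Y Z : ℤ, Z = 2 * k + 1 → ∃ n : ℤ, 8 * X + (8 * Y + 4 * Z) = 8 * n + 4 := by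
        intro X Y Z hZ
        exact ⟨X + Y + k, by rw [hZ]; ring⟩
      exact e _ _ _ hk

end Pool.Agent.Q175.RL
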