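import Pool.Agent.Q248.RL.Stm2
import Pool.Agent.Y813.RL.Bf

set_option autoImplicit false

/-!
# RL-ODE3: the conclusion on the discriminant form from the differential equation
-/

open UpperHalfPlane

namespace Pool.Agent.Q175.RL

open Pool.Agent.Y813.RL Pool.Agent.Q248.RL

theorem ee_int' (n : ℤ) : ee (n : ℂ) = 1 := by
  unfold ee
  rw [Complex.exp_eq_one_iff]
  exact ⟨n, by ring⟩

theorem ee_add' (x y : ℂ) : ee (x + y) = ee x * ee y := by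
  unfold ee
  rw [← Complex.exp_add]
  ring_nf

theorem ee_half (k : ℤ) : ee (-((k : ℂ) + 1 / 2)) = -1 := by
  have h : -((k : ℂ) + 1 / 2) = ((-k - 1 : ℤ) : ℂ) + 1 / 2 := by push_cast; ring
  rw [h, ee_add', ee_int', one_mul]
  unfold ee
  have h2 : 2 * (Real.pi : ℂ) * Complex.I * (1 / 2) = Real.pi * Complex.I := by ring
  rw [h2, Complex.exp_pi_mul_I]

theorem isUnit_det' {G : Matrix (Fin 20) (Fin 20) ℤ} (h : PosSymm G) :
    IsUnit (G.map (Int.cast : ℤ → ℝ)).det := by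
  rw [isUnit_iff_ne_zero]
  intro h0
  obtain ⟨x, hx, hx0⟩ := Matrix.exists_mulVec_eq_zero_iff.2 h0
  have h2 := h.pos x hx
  have h3 : bf G x x = ∑ i, x i * ((G.map (Int.cast : ℤ → ℝ)).mulVec x) i := by
    simp only [bf, Matrix.mulVec, dotProduct, Matrix.map_apply, Finset.mul_sum, mul_assoc]
  rw [h3, hx0] at h2
  simp at h2

theorem bd_right {G : Matrix (Fin 20) (Fin 20) ℤ} (h : PosSymm G) (μ v : Fin 20 → ℤ) :
    bd G μ (G.mulVec v) = ((∑ i, μ i * v i : ℤ) : ℝ) := by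
  have hdet := isUnit_det' h
  have h1 : (fun j => ((G.mulVec v j : ℤ) : ℝ)) =
      (G.map (Int.cast : ℤ → ℝ)).mulVec (fun j => (v j : ℝ)) := by
    funext j
    simp [Matrix.mulVec, dotProduct]
  unfold bd
  rw [h1, Matrix.mulVec_mulVec, Matrix.nonsing_inv_mul _ hdet, Matrix.one_mulVec]
  push_cast
  rfl

theorem neg_inv_im {τ : ℂ} (h : 0 < τ.im) : 0 < (-1 / τ).im := by
  have h0 : τ ≠ 0 := by rintro rfl; simp at h
  rw [neg_div, one_div, Complex.neg_im, Complex.inv_im]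
  have : 0 < Complex.normSq τ := Complex.normSq_pos.2 h0
  have := div_pos h this
  rw [neg_div]
  linarith

theorem neg_inv_neg_inv {τ : ℂ} (h : 0 < τ.im) : -1 / (-1 / τ) = τ := by
  have h0 : τ ≠ 0 := by rintro rfl; simp at h
  field_simp

/-- A function of weight -10 with `g(τ+1) = -g(τ)` and growth at most `exp(π y)` vanishes. -/
theorem scalar_zero (hVV : JobVV) {g : ℂ → ℂ} {C : ℂ} {D : ℝ}
    (hd : DifferentiableOn ℂ g {τ | 0 < τ.im})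
    (hT : ∀ τ : ℂ, 0 < τ.im → g (τ + 1) = -g τ)
    (hS : ∀ τ : ℂ, 0 < τ.im → g τ = C * τ ^ 10 * g (-1 / τ))
    (hg : ∀ τ : ℂ, 1 / 2 ≤ τ.im → ‖g τ‖ ≤ D * Real.exp (Real.pi * τ.im)) :
    ∀ τ : ℂ, 0 < τ.im → g τ = 0 := by
  by_contra hne
  push Not at hne
  obtain ⟨τ₀, hτ₀, hg₀⟩ := hne
  have hC : C ^ 2 = 1 := by
    have h0 : τ₀ ≠ 0 := by rintro rfl; simp at hτ₀
    have h1 := hS τ₀ hτ₀
    rw [hS (-1 / τ₀) (neg_inv_im hτ₀), neg_inv_neg_inv hτ₀] at h1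
    have h2 : C * τ₀ ^ 10 * (C * (-1 / τ₀) ^ 10 * g τ₀) = C ^ 2 * g τ₀ := by
      field_simp
    rw [h2] at h1
    have h3 : (C ^ 2 - 1) * g τ₀ = 0 := by linear_combination -h1
    rcases mul_eq_zero.1 h3 with h | h
    · linear_combination h
    · exact absurd h hg₀
  have hCn : ‖C‖ = 1 := by
    have h1 : ‖C‖ ^ 2 = 1 := by rw [← norm_pow, hC, norm_one]
    exact (pow_eq_one_iff_of_nonneg (norm_nonneg C) two_ne_zero).1 h1
  have := hVV Unit 10 (-1 / 2) (fun τ _ => g τ) (by norm_num) ?_ ?_ ?_ ?_ τ₀ hτ₀ ()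
  · exact hg₀ this
  · rw [differentiableOn_pi]
    intro _
    exact hd
  · intro τ hτ
    simp [hT τ hτ]
  · intro τ hτ
    simp only [Finset.univ_unique, Finset.sum_singleton]
    rw [hS τ hτ, norm_mul, norm_mul, hCn, norm_pow, one_mul, mul_pow, ← pow_mul]
  · refine ⟨D, fun τ hτ _ => ?_⟩
    have h1 := hg τ hτ
    have h2 : -(2 * Real.pi * (-1 / 2) * τ.im) = Real.pi * τ.im := by ring
    rw [h2]
    exact h1

section

variable {G : Matrix (Fin 20) (Fin 20) ℤ} {R : Finset (Fin 20 → ℤ)} {f : (Fin 20 → ℤ) → ℂ → ℂ}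

theorem f_im_eq (hV : VV10 G R f) (v : Fin 20 → ℤ) {τ : ℂ} (hτ : 0 < τ.im) :
    f (G.mulVec v) τ = f 0 τ := by
  have := hV.inv 0 v τ hτ
  rwa [zero_add] at this

theorem f_zero_T (hV : VV10 G R f) {τ : ℂ} (hτ : 0 < τ.im) : f 0 (τ + 1) = f 0 τ := by
  have := hV.T 0 τ hτ
  have h0 : bd G 0 0 = 0 := by simp [bd]
  rw [h0] at this
  simpa [ee] using this

/-- all components vanish if one outside of the trivial class does -/
theorem all_zero (hVV : JobVV) (hFF : JobFinFour) (h2 : S_ODE2A) (h3 : S_ODE2B)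
    (hG : PosSymm G) (hR : IsReps G R) (hV : VV10 G R f)
    (hL : ∀ (μ : Fin 20 → ℤ) (z : ℍ), Lop (f μ) z = 0)
    (hgr : ∀ μ, (¬ ∃ v : Fin 20 → ℤ, μ = G.mulVec v) →
      ∃ C : ℝ, ∀ τ : ℂ, 1 / 2 ≤ τ.im → ‖f μ τ‖ ≤ C * Real.exp (Real.pi * τ.im))
    {μ : Fin 20 → ℤ}
    (hz : ∀ τ : ℂ, 0 < τ.im → f μ τ = 0) :
    ∀ ν (τ : ℂ), 0 < τ.im → f ν τ = 0 := by
  have hdet : (0 : ℝ) < G.det := by exact_mod_cast (hFF G hG).1
  have hsq : (Real.sqrt (G.det : ℝ) : ℂ) ≠ 0 := by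
    exact_mod_cast (Real.sqrt_pos.2 hdet).ne'
  -- the sign of the translates
  have hsgn : ∀ ρ, (¬ ∃ v : Fin 20 → ℤ, ρ = G.mulVec v) → ∀ τ : ℂ, 0 < τ.im →
      f ρ (τ + 1) = -f ρ τ := by
    intro ρ hρ τ hτ
    by_cases hk : ∃ k : ℤ, bd G ρ ρ / 2 = k + 1 / 2
    · obtain ⟨k, hk⟩ := hk
      rw [hV.T ρ τ hτ]
      have : ((bd G ρ ρ : ℂ) / 2) = (k : ℂ) + 1 / 2 := by
        have := congrArg (fun x : ℝ => (x : ℂ)) hk
        simpa using this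
      rw [this, ee_half]
      ring
    · obtain ⟨C, hC⟩ := hgr ρ hρ
      have h0 := h2 (bd G ρ ρ / 2) C (f ρ) (hV.holo ρ)
        (fun τ hτ => by rw [hV.T ρ τ hτ]; push_cast; rfl) (hL ρ) hC hk
      rw [h0 τ hτ, h0 (τ + 1) (by simpa using hτ)]
      simp
  -- the representative of the trivial class
  obtain ⟨ρ₀, ⟨hρ₀R, v₀, hv₀⟩, huniq⟩ := hR 0
  have hρ₀ : ρ₀ = G.mulVec (-v₀) := by
    rw [Matrix.mulVec_neg]
    exact eq_neg_of_add_eq_zero_left hv₀.symm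
  have hout : ∀ ρ ∈ R, ρ ≠ ρ₀ → ¬ ∃ v : Fin 20 → ℤ, ρ = G.mulVec v := by
    rintro ρ hρR hne ⟨v, hv⟩
    apply hne
    apply huniq
    refine ⟨hρR, -v, ?_⟩
    rw [hv, Matrix.mulVec_neg, add_neg_cancel]
  have hfρ₀ : ∀ τ : ℂ, 0 < τ.im → f ρ₀ τ = f 0 τ := by
    intro τ hτ
    rw [hρ₀]
    exact f_im_eq hV _ hτ
  -- the relation at μ
  have hrel : ∀ τ : ℂ, 0 < τ.im → ∑ ρ ∈ R, ee (-(bd G μ ρ : ℂ)) * f ρ τ = 0 := by
    intro τ hτ
    have h1 := hV.S μ (-1 / τ) (neg_inv_im hτ)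
    rw [hz _ (neg_inv_im hτ), neg_inv_neg_inv hτ] at h1
    have hτ0 : τ ≠ 0 := by rintro rfl; simp at hτ
    have h4 : -((-1 / τ) ^ 10) / (Real.sqrt (G.det : ℝ) : ℂ) ≠ 0 := by
      apply div_ne_zero _ hsq
      apply neg_ne_zero.2
      apply pow_ne_zero
      exact div_ne_zero (by norm_num) hτ0
    exact (mul_eq_zero.1 h1.symm).resolve_left h4
  have hf0 : ∀ τ : ℂ, 0 < τ.im → f 0 τ = 0 := by
    have hs : ∀ τ : ℂ, 0 < τ.im →
        f 0 τ = -∑ ρ ∈ R.erase ρ₀, ee (-(bd G μ ρ : ℂ)) * f ρ τ := by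
      intro τ hτ
      have h1 := hrel τ hτ
      rw [← Finset.add_sum_erase R _ hρ₀R] at h1
      have h4 : ee (-(bd G μ ρ₀ : ℂ)) = 1 := by
        rw [hρ₀, bd_right hG]
        have : -(((∑ i, μ i * (-v₀) i : ℤ) : ℝ) : ℂ) = ((-(∑ i, μ i * (-v₀) i) : ℤ) : ℂ) := by
          push_cast
          rfl
        rw [this, ee_int']
      rw [h4, one_mul, hfρ₀ τ hτ] at h1
      exact eq_neg_of_add_eq_zero_left h1
    intro τ hτ
    have h1 : f 0 (τ + 1) = -f 0 τ := by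
      rw [hs τ hτ, hs (τ + 1) (by simpa using hτ), ← Finset.sum_neg_distrib, ← Finset.sum_neg_distrib,
        ← Finset.sum_neg_distrib]
      refine Finset.sum_congr rfl fun ρ hρ => ?_
      rw [Finset.mem_erase] at hρ
      rw [hsgn ρ (hout ρ hρ.2 hρ.1) τ hτ]
      ring
    rw [f_zero_T hV hτ] at h1
    have : (2 : ℂ) * f 0 τ = 0 := by linear_combination h1
    simpa using this
  -- all components with index in R vanish
  have hall : ∀ ρ ∈ R, ∀ τ : ℂ, 0 < τ.im → f ρ τ = 0 := by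
    intro ρ₁ hρ₁R
    by_contra hne
    have hρ₁ : ρ₁ ≠ ρ₀ := by
      rintro rfl
      apply hne
      intro τ hτ
      rw [hfρ₀ τ hτ, hf0 τ hτ]
    have ho₁ := hout ρ₁ hρ₁R hρ₁
    obtain ⟨C₁, hC₁⟩ := hgr ρ₁ ho₁
    have hc : ∀ ρ ∈ R, ∃ c : ℂ, ∀ τ : ℂ, 0 < τ.im → f ρ τ = c * f ρ₁ τ := by
      intro ρ hρR
      by_cases hρ : ρ = ρ₀
      · refine ⟨0, fun τ hτ => ?_⟩
        rw [hρ, hfρ₀ τ hτ, hf0 τ hτ, zero_mul]
      · have ho := hout ρ hρR hρ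
        obtain ⟨C, hC⟩ := hgr ρ ho
        obtain ⟨a, b, hab, hlin⟩ := h3 (max C₁ C) (f ρ₁) (f ρ) (hV.holo _) (hV.holo _)
          (hsgn ρ₁ ho₁) (hsgn ρ ho) (hL _) (hL _)
          (fun τ hτ => (hC₁ τ hτ).trans
            (mul_le_mul_of_nonneg_right (le_max_left _ _) (Real.exp_pos _).le))
          (fun τ hτ => (hC τ hτ).trans
            (mul_le_mul_of_nonneg_right (le_max_right _ _) (Real.exp_pos _).le))
        by_cases hb : b = 0
        · exfalso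
          have ha : a ≠ 0 := by
            rcases hab with h | h
            · exact h
            · exact absurd hb h
          apply hne
          intro τ hτ
          have := hlin τ hτ
          rw [hb, zero_mul, add_zero] at this
          exact (mul_eq_zero.1 this).resolve_left ha
        · refine ⟨-a / b, fun τ hτ => ?_⟩
          have := hlin τ hτ
          field_simp
          linear_combination this
    choose! c hc using hc
    apply hne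
    refine scalar_zero hVV (C := -(1 / (Real.sqrt (G.det : ℝ) : ℂ)) *
      ∑ ρ ∈ R, ee (-(bd G ρ₁ ρ : ℂ)) * c ρ) (hV.holo ρ₁) (hsgn ρ₁ ho₁) ?_ hC₁
    intro τ hτ
    conv_lhs => rw [hV.S ρ₁ τ hτ]
    have h5 : ∑ ρ ∈ R, ee (-(bd G ρ₁ ρ : ℂ)) * f ρ (-1 / τ) =
        (∑ ρ ∈ R, ee (-(bd G ρ₁ ρ : ℂ)) * c ρ) * f ρ₁ (-1 / τ) := by
      rw [Finset.sum_mul]
      refine Finset.sum_congr rfl fun ρ hρ => ?_
      rw [hc ρ hρ _ (neg_inv_im hτ)]
      ring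
    rw [h5]
    ring
  intro ν τ hτ
  obtain ⟨ρ, ⟨hρR, v, hv⟩, -⟩ := hR ν
  rw [hv, hV.inv ρ v τ hτ]
  exact hall ρ hρR τ hτ

/-- the case of determinant one -/
theorem all_zero_of_det_one (hR : IsReps G R) (hV : VV10 G R f)
    (hdet : G.det = 1) : ∀ ν (τ : ℂ), 0 < τ.im → f ν τ = 0 := by
  have him : ∀ ν : Fin 20 → ℤ, ∃ v : Fin 20 → ℤ, ν = G.mulVec v := by
    intro ν
    refine ⟨G⁻¹.mulVec ν, ?_⟩
    rw [Matrix.mulVec_mulVec, Matrix.mul_nonsing_inv _ (by rw [hdet]; exact isUnit_one),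
      Matrix.one_mulVec]
  obtain ⟨ρ₀, ⟨hρ₀R, v₀, hv₀⟩, huniq⟩ := hR 0
  have hRs : R = {ρ₀} := by
    ext ρ
    rw [Finset.mem_singleton]
    constructor
    · intro hρ
      apply huniq
      obtain ⟨v, hv⟩ := him ρ
      refine ⟨hρ, -v, ?_⟩
      rw [hv, Matrix.mulVec_neg, add_neg_cancel]
    · rintro rfl
      exact hρ₀R
  have hf : ∀ ν (τ : ℂ), 0 < τ.im → f ν τ = f 0 τ := by
    intro ν τ hτ
    obtain ⟨v, hv⟩ := him ν
    rw [hv]
    exact f_im_eq hV _ hτ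
  have hS : ∀ τ : ℂ, 0 < τ.im → f 0 τ = -(τ ^ 10) * f 0 (-1 / τ) := by
    intro τ hτ
    have h1 := hV.S 0 τ hτ
    have h0 : bd G 0 ρ₀ = 0 := by simp [bd]
    rw [hRs, Finset.sum_singleton, h0, hdet, hf ρ₀ _ (neg_inv_im hτ)] at h1
    simpa [ee] using h1
  have hT : ∀ τ : ℂ, 0 < τ.im → f 0 (τ + 1) = f 0 τ := fun τ hτ => f_zero_T hV hτ
  intro ν τ hτ
  rw [hf ν τ hτ]
  have h0 : τ ≠ 0 := by rintro rfl; simp at hτ
  have hτ1 : 0 < (τ + 1).im := by simpa using hτ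
  have h10 : τ + 1 ≠ 0 := by
    intro h
    rw [h] at hτ1
    simp at hτ1
  -- f(τ) = f(τ+1) = -(τ+1)^10 f(-1/(τ+1))
  have a1 := hS (τ + 1) hτ1
  rw [hT τ hτ] at a1
  -- f(-1/(τ+1)) = f(τ/(τ+1))
  have a2 := hT (-1 / (τ + 1)) (neg_inv_im hτ1)
  have e2 : -1 / (τ + 1) + 1 = τ / (τ + 1) := by field_simp; ring
  have hi2 : 0 < (τ / (τ + 1)).im := by
    rw [← e2]
    simpa using neg_inv_im hτ1
  rw [e2] at a2
  have a3 := hS (τ / (τ + 1)) hi2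
  have e3 : -1 / (τ / (τ + 1)) = -1 / τ - 1 := by field_simp; ring
  rw [e3] at a3
  have hi3 : 0 < (-1 / τ - 1).im := by simpa using neg_inv_im hτ
  have a4 := hT (-1 / τ - 1) hi3
  rw [sub_add_cancel] at a4
  have a5 := hS τ hτ
  have e4 : (τ + 1) ^ 10 * (τ / (τ + 1)) ^ 10 = τ ^ 10 := by
    rw [← mul_pow]
    congr 1
    field_simp
  have : f 0 τ = -f 0 τ := by
    calc f 0 τ = -((τ + 1) ^ 10) * f 0 (-1 / (τ + 1)) := a1
      _ = -((τ + 1) ^ 10) * f 0 (τ / (τ + 1)) := by rw [a2]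
      _ = ((τ + 1) ^ 10 * (τ / (τ + 1)) ^ 10) * f 0 (-1 / τ - 1) := by rw [a3]; ring
      _ = τ ^ 10 * f 0 (-1 / τ) := by rw [e4, a4]
      _ = -f 0 τ := by rw [a5]; ring
  have h2 : (2 : ℂ) * f 0 τ = 0 := by linear_combination this
  simpa using h2

end

theorem ode (hVV : JobVV) (hFF : JobFinFour) (h1 : S_ODE1) (h2 : S_ODE2A) (h3 : S_ODE2B) :
    JobODE := by
  intro G R f hG he hR hV hgr1 hgr2 hne
  have hL := h1 G R f hG he hR hV hgr1 hgr2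
  refine ⟨?_, ?_⟩
  · intro μ hμ
    by_contra hk
    obtain ⟨C, hC⟩ := hgr2 μ hμ
    have hk' : ¬ ∃ k : ℤ, bd G μ μ / 2 = k + 1 / 2 := by
      rintro ⟨k, hk1⟩
      exact hk ⟨k, by linarith⟩
    have hz := h2 (bd G μ μ / 2) C (f μ) (hV.holo μ)
      (fun τ hτ => by rw [hV.T μ τ hτ]; push_cast; rfl) (hL μ) hC hk'
    obtain ⟨ν, τ, hτ, hν⟩ := hne
    exact hν (all_zero hVV hFF h2 h3 hG hR hV hL hgr2 hz ν τ hτ)
  · intro hdet
    obtain ⟨ν, τ, hτ, hν⟩ := hne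
    exact hν (all_zero_of_det_one hR hV hdet ν τ hτ)

end Pool.Agent.Q175.RL
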